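import Pool.Agent.Helper10.RC.Basic

/-! # Tracial divisibility of the fixed point algebra (packet TDiv) -/

open scoped ENNReal NNReal InnerProductSpace ComplexOrder
open Filter Topology

attribute [-instance] CStarMatrix.instAlgebra CStarMatrix.instModule CStarMatrix.instSMul
  CStarMatrix.instMulAction CStarMatrix.instDistribMulAction

noncomputable section
namespace RC
universe u

section
variable {B : Type u} [CStarAlgebra B] [PartialOrder B] [StarOrderedRing B]

/-- the diagonal embedding as a homomorphism -/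
def dgHom (B : Type u) [CStarAlgebra B] [PartialOrder B] [StarOrderedRing B] (κ : Type)
    [Fintype κ] [DecidableEq κ] : B →⋆ₐ[ℂ] CStarMatrix κ κ B where
  toFun := dg κ
  map_one' := by
    ext i j
    show Matrix.diagonal (fun _ => (1 : B)) i j = (1 : Matrix κ κ B) i j
    rfl
  map_mul' a b := by
    ext i j
    exact congrFun (congrFun (Matrix.diagonal_mul_diagonal (fun _ : κ => a)
      (fun _ : κ => b)).symm i) j
  map_zero' := by
    ext i j
    exact congrFun (congrFun (Matrix.diagonal_zero (n := κ) (α := B)) i) j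
  map_add' a b := by
    ext i j
    exact congrFun (congrFun (Matrix.diagonal_add (fun _ : κ => a) (fun _ : κ => b)).symm i) j
  commutes' c := by
    ext i j
    show Matrix.diagonal (fun _ => (algebraMap ℂ B c : B)) i j =
      (algebraMap ℂ (CStarMatrix κ κ B) c) i j
    rw [Algebra.algebraMap_eq_smul_one, Algebra.algebraMap_eq_smul_one]
    show _ = c • ((1 : Matrix κ κ B) i j)
    rw [Matrix.diagonal_apply, Matrix.one_apply]
    split_ifs <;> simp
  map_star' a := by
    ext i j
    show Matrix.diagonal (fun _ => (star a : B)) i j = star ((Matrix.diagonal fun _ => a) j i)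
    rw [Matrix.diagonal_apply, Matrix.diagonal_apply]
    by_cases h : i = j
    · subst h; simp
    · rw [if_neg h, if_neg (fun h' => h h'.symm), star_zero]

lemma dg_cfc93 (κ : Type) [Fintype κ] [DecidableEq κ] (a : B) (ha : IsSelfAdjoint a) (f : ℝ → ℝ)
    (hf : Continuous f) : dg κ (cfc f a) = cfc f (dg κ a) := by
  have h1 : Continuous (dgHom B κ) := map_continuous (dgHom B κ)
  have h2 : IsSelfAdjoint (dgHom B κ a) := ha.map _
  exact StarAlgHom.map_cfc (dgHom B κ) f a hf.continuousOn h1 ha h2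

lemma dg_cut (κ : Type) [Fintype κ] [DecidableEq κ] (a : B) (ha : IsSelfAdjoint a) (ε : ℝ) :
    dg κ (cut a ε) = cut (dg κ a) ε :=
  dg_cfc93 κ a ha _ (by fun_prop)

omit [PartialOrder B] [StarOrderedRing B] in
lemma dg_unit (a : B) : dg Unit a = one1 a := by
  ext i j
  rfl

lemma dim_cut_le (φ : TState B) (σ₀ : QTrace B) (hQ : IsQ φ σ₀) {ι : Type} [Fintype ι]
    [DecidableEq ι] (H : CStarMatrix ι ι B) (hH : IsSelfAdjoint H) {ε : ℝ} (hε : 0 < ε) :
    σ₀.dim (cut H ε) ≤ (∑ i, ∑ l, (φ.φ (star (H l i) * H l i)).re) / ε ^ 2 := by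
  unfold QTrace.dim
  refine ciSup_le fun n => ?_
  have e1 : cfc (fun t : ℝ => min 1 ((n : ℝ) * t)) (cut H ε) =
      cfc (fun t : ℝ => min 1 ((n : ℝ) * max (t - ε) 0)) H := by
    unfold cut
    rw [← cfc_comp' (fun x : ℝ => min 1 ((n : ℝ) * x)) (fun x : ℝ => max (x - ε) 0) H]
  have e2 : cfc (fun t : ℝ => (ε ^ 2)⁻¹ * (t * t)) H = (ε ^ 2)⁻¹ • (H * H) := by
    rw [cfc_const_mul (ε ^ 2)⁻¹ (fun t : ℝ => t * t) H, cfc_mul (fun t : ℝ => t) (fun t : ℝ => t) H,
      cfc_id' ℝ H]
  have e3 : σ₀.τ ι (cfc (fun t : ℝ => min 1 ((n : ℝ) * max (t - ε) 0)) H) ≤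
      σ₀.τ ι (cfc (fun t : ℝ => (ε ^ 2)⁻¹ * (t * t)) H) := by
    refine σ₀.cfc_mono (by fun_prop) (by fun_prop) (fun t _ => ?_) (fun t _ => ?_)
    · exact le_min zero_le_one (mul_nonneg (Nat.cast_nonneg n) (le_max_right _ _))
    · rcases le_total t ε with h | h
      · rw [max_eq_right (by linarith), mul_zero, min_eq_right zero_le_one]
        exact mul_nonneg (by positivity) (mul_self_nonneg t)
      · refine (min_le_left _ _).trans ?_
        rw [inv_mul_eq_div, le_div_iff₀ (by positivity), one_mul, sq]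
        exact mul_self_le_mul_self hε.le h
  have hHH : 0 ≤ H * H := by
    have := star_mul_self_nonneg H
    rwa [hH.star_eq] at this
  rw [e1]
  refine e3.trans (le_of_eq ?_)
  rw [e2, σ₀.smul ι _ _ (by positivity) hHH, hQ ι (H * H), inv_mul_eq_div]
  congr 1
  refine Finset.sum_congr rfl fun i _ => ?_
  rw [CStarMatrix.mul_apply, map_sum, Complex.re_sum]
  refine Finset.sum_congr rfl fun l _ => ?_
  have : H i l = star (H l i) := by
    conv_lhs => rw [← hH.star_eq]
    rfl
  rw [this]

end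

theorem tDivP (h1 : TD2P.{u}) (h2 : SBP.{u}) (h3 : DomMP.{u}) (hLA : CuLeAddP.{u})
    (hSw : CuSwapP.{u}) (hAd : CuAddP.{u}) (hQM : QMonoP.{u}) (hQD : QDsumP.{u})
    (hDg : QDgP.{u}) (hQB : QBasicP.{u}) (hMp : MpP.{u}) : TDivP.{u} := by
  intro A _ _ _ B _ _ _ G _ _ α j hact hfix hsimp hinf φ σ₀ C hQ hC hDom hinv N δ hδ
  obtain ⟨m, hm⟩ := h2 A B G α j hact hfix hsimp
  have hinj : Function.Injective j := hfix.1
  have hD : ∀ (ω : QTrace B) (κ : Type) [Fintype κ] [DecidableEq κ] (x : CStarMatrix κ κ B),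
      0 ≤ x → ω.dim x ≤ m * (C * Fintype.card κ * σ₀.dim (mp j x)) := by
    intro ω κ _ _ x hx
    obtain ⟨σ, hσ⟩ := hm ω
    obtain ⟨a1, a2⟩ := hσ κ x hx
    exact a2.trans (mul_le_mul_of_nonneg_left (h3 A σ₀ C hC hDom σ κ _ a1) (Nat.cast_nonneg m))
  have hone : ∀ x : B, 0 ≤ x → 0 ≤ one1 x := by
    intro x hx
    have h4 : 0 ≤ dgHom B Unit x := map_nonneg (dgHom B Unit) hx
    rw [← dg_unit]
    exact h4
  -- estimate (E)
  have hE : ∀ (κ : Type) [Fintype κ] [DecidableEq κ] (h : CStarMatrix κ κ B), IsSelfAdjoint h →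
      ∀ ε : ℝ, 0 < ε → σ₀.dim (mp j (cut h ε)) ≤
        (∑ i, ∑ l, (φ.φ (j (star (h l i) * h l i))).re) / ε ^ 2 := by
    intro κ _ _ h hh ε hε
    have a1 : mp j (cut h ε) = cut (mp j h) ε :=
      (hMp A B j hinj κ κ h h).2.2.2 (fun t => max (t - ε) 0) (by fun_prop) hh
    have a2 : IsSelfAdjoint (mp j h) := by
      show star (mp j h) = mp j h
      ext i l
      show star (j (h l i)) = j (h i l)
      rw [← map_star]
      congr 1
      conv_rhs => rw [← hh.star_eq]
      rfl
    rw [a1]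
    refine (dim_cut_le φ σ₀ hQ (mp j h) a2 hε).trans (le_of_eq ?_)
    congr 1
    refine Finset.sum_congr rfl fun i _ => Finset.sum_congr rfl fun l _ => ?_
    show (φ.φ (star (j (h l i)) * j (h l i))).re = _
    rw [map_mul j, map_star j]
  obtain ⟨k, hk⟩ : ∃ k, N ≤ 2 ^ k := ⟨N, Nat.lt_two_pow_self.le⟩
  have hL : (0 : ℝ) < ((2 ^ k : ℕ) : ℝ) := by positivity
  set L : ℝ := ((2 ^ k : ℕ) : ℝ) with hLdef
  set δ' : ℝ := δ / (2 * L) with hδ'def
  have hδ' : 0 < δ' := by positivity
  set M : ℝ := m * C with hMdef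
  have hM : 0 ≤ M := by positivity
  set η₁ : ℝ := δ * (δ / 2) ^ 2 / (2 * (M + 1)) with hη₁
  set η₂ : ℝ := δ * δ' ^ 2 / (2 * (M * L ^ 3 + 1)) with hη₂
  have hη₁p : 0 < η₁ := by positivity
  have hη₂p : 0 < η₂ := by positivity
  obtain ⟨e, x, he0, he1, hx, hg, hu⟩ := h1 A B G α j hact hfix hsimp hinf φ σ₀ M hQ hM (by
    intro ω y hy
    have := hD ω Unit (one1 y) (hone y hy)
    rw [Fintype.card_unit] at this
    refine this.trans (le_of_eq ?_)
    rw [hMdef]
    have e1 : mp j (one1 y) = one1 (j y) := rfl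
    rw [e1]
    push_cast; ring) hinv k (min η₁ η₂) (lt_min hη₁p hη₂p)
  have hesa : IsSelfAdjoint e := he0.isSelfAdjoint
  have hee : 0 ≤ e * e := by
    have := star_mul_self_nonneg e
    rwa [hesa.star_eq] at this
  set g : B := 1 - ∑ i, x i * (e * e) * star (x i) with hgdef
  have hgsa : IsSelfAdjoint g := by
    refine (IsSelfAdjoint.one B).sub (isSelfAdjoint_sum _ fun i _ => ?_)
    exact (star_right_conjugate_nonneg hee (x i)).isSelfAdjoint
  refine ⟨2 ^ k, hk, by positivity, cut (e * e) δ', cut_nonneg _ _,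
    ⟨x, cut g (δ / 2), cut_nonneg _ _, ?_, ?_⟩, ?_⟩
  · have a1 := le_cut_add hgsa (δ / 2)
    have a2 : ∀ i, x i * (e * e) * star (x i) ≤
        x i * cut (e * e) δ' * star (x i) + δ' • (1 : B) := by
      intro i
      have b1 := star_right_conjugate_le_conjugate (le_cut_add hee.isSelfAdjoint δ') (x i)
      refine b1.trans ?_
      have b2 : x i * (cut (e * e) δ' + δ' • (1 : B)) * star (x i) =
          x i * cut (e * e) δ' * star (x i) + δ' • (x i * star (x i)) := by
        rw [mul_add, add_mul, mul_smul_comm, mul_one, smul_mul_assoc]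
      rw [b2]
      refine add_le_add le_rfl ?_
      have b3 : x i * star (x i) ≤ 1 := by
        have c1 : 0 ≤ x i * star (x i) := mul_star_self_nonneg _
        rw [← CStarAlgebra.norm_le_one_iff_of_nonneg _ c1, CStarRing.norm_self_mul_star]
        have := hx i
        nlinarith [norm_nonneg (x i)]
      exact smul_le_smul_of_nonneg_left b3 hδ'.le
    have a3 : ∑ i, x i * (e * e) * star (x i) ≤
        ∑ i, x i * cut (e * e) δ' * star (x i) + (δ / 2) • (1 : B) := by
      refine (Finset.sum_le_sum fun i _ => a2 i).trans ?_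
      rw [Finset.sum_add_distrib, Finset.sum_const, Finset.card_univ, Fintype.card_fin]
      refine add_le_add le_rfl (le_of_eq ?_)
      rw [← Nat.cast_smul_eq_nsmul ℝ, smul_smul]
      congr 1
      rw [← hLdef, hδ'def]
      field_simp
    have a4 : (1 : B) = ∑ i, x i * (e * e) * star (x i) + g := by
      rw [hgdef]; abel
    calc (1 : B) = ∑ i, x i * (e * e) * star (x i) + g := a4
      _ ≤ (∑ i, x i * cut (e * e) δ' * star (x i) + (δ / 2) • (1 : B)) +
          (cut g (δ / 2) + (δ / 2) • (1 : B)) := add_le_add a3 a1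
      _ = ∑ i, x i * cut (e * e) δ' * star (x i) + cut g (δ / 2) +
          ((δ / 2) • (1 : B) + (δ / 2) • (1 : B)) := by abel
      _ = _ := by rw [← add_smul, add_halves]
  · intro ω
    have b1 : one1 (cut g (δ / 2)) = cut (one1 g) (δ / 2) := by
      rw [← dg_unit, ← dg_unit, dg_cut Unit g hgsa]
    have b2 : IsSelfAdjoint (one1 g) := by
      have := hgsa.map (dgHom B Unit)
      rw [← dg_unit]
      exact this
    have b3 := hD ω Unit (one1 (cut g (δ / 2))) (hone _ (cut_nonneg _ _))
    rw [b1] at b3 ⊢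
    have b4 := hE Unit (one1 g) b2 (δ / 2) (by positivity)
    have b5 : (∑ i : Unit, ∑ l : Unit, (φ.φ (j (star (one1 g l i) * one1 g l i))).re) < η₁ := by
      simp only [Finset.univ_unique, Finset.sum_singleton]
      exact hg.trans_le (min_le_left _ _)
    rw [Fintype.card_unit] at b3
    have b6 : σ₀.dim (mp j (cut (one1 g) (δ / 2))) ≤ η₁ / (δ / 2) ^ 2 :=
      b4.trans (div_le_div_of_nonneg_right b5.le (by positivity))
    calc ω.dim (cut (one1 g) (δ / 2))
        ≤ m * (C * (1 : ℕ) * σ₀.dim (mp j (cut (one1 g) (δ / 2)))) := b3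
      _ = M * σ₀.dim (mp j (cut (one1 g) (δ / 2))) := by rw [hMdef]; push_cast; ring
      _ ≤ M * (η₁ / (δ / 2) ^ 2) := mul_le_mul_of_nonneg_left b6 hM
      _ = (M / (M + 1)) * (δ / 2) := by rw [hη₁]; field_simp
      _ ≤ 1 * (δ / 2) := by
          refine mul_le_mul_of_nonneg_right ?_ (by positivity)
          rw [div_le_one (by positivity)]
          linarith
      _ < δ := by linarith
  · intro ω
    set X : CStarMatrix Unit (Fin (2 ^ k)) B := CStarMatrix.ofMatrix fun _ i => x i * e with hX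
    have hXX : 0 ≤ X.conjTranspose * X := cm_conj_mul_nonneg X
    obtain ⟨hdg0, hdg1⟩ := hDg B ω (Fin (2 ^ k)) (cut (e * e) δ') (cut_nonneg _ _)
    have hdee := (hDg B ω (Fin (2 ^ k)) (e * e) hee).1
    set h : CStarMatrix (Fin (2 ^ k)) (Fin (2 ^ k)) B :=
      dg (Fin (2 ^ k)) (e * e) - X.conjTranspose * X with hh
    have hsa : IsSelfAdjoint h := hdee.isSelfAdjoint.sub hXX.isSelfAdjoint
    have c1 : dg (Fin (2 ^ k)) (e * e) ≤ (X.conjTranspose * X + cut h δ') +
        δ' • (1 : CStarMatrix (Fin (2 ^ k)) (Fin (2 ^ k)) B) := by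
      have := le_cut_add hsa δ'
      have e1 : dg (Fin (2 ^ k)) (e * e) = X.conjTranspose * X + h := by rw [hh]; abel
      rw [e1, add_assoc]
      exact add_le_add le_rfl this
    have c2 : Cu (cut (dg (Fin (2 ^ k)) (e * e)) δ') (X.conjTranspose * X + cut h δ') :=
      hLA B _ _ _ δ' hδ'.le hdee (add_nonneg hXX (cut_nonneg _ _)) c1
    have c3 : Cu (X.conjTranspose * X + cut h δ') (dsum (X.conjTranspose * X) (cut h δ')) := by
      have := hAd B (Fin (2 ^ k)) (X.conjTranspose * X) (cut h δ') 0 0 le_rfl le_rfl hXX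
        (cut_nonneg _ _)
      rwa [add_zero, cut_zero hXX, cut_zero (cut_nonneg _ _),
        cut_zero (add_nonneg hXX (cut_nonneg _ _))] at this
    have c4 : Cu (X.conjTranspose * X) (X * X.conjTranspose) := by
      have := hSw B (Fin (2 ^ k)) Unit X.conjTranspose 0 le_rfl
      rwa [cm_conj_conj, cut_zero hXX, cut_zero (cm_mul_conj_nonneg X)] at this
    obtain ⟨d1, d2⟩ := hQD B ω _ _ (X.conjTranspose * X) (cut h δ') hXX (cut_nonneg _ _)
    have c5 : ω.dim (cut (dg (Fin (2 ^ k)) (e * e)) δ') ≤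
        ω.dim (X.conjTranspose * X) + ω.dim (cut h δ') := by
      rw [← d2]
      exact (hQM B ω _ _ _ _ (cut_nonneg _ _) (add_nonneg hXX (cut_nonneg _ _)) c2).trans
        (hQM B ω _ _ _ _ (add_nonneg hXX (cut_nonneg _ _)) d1 c3)
    have c6 : ω.dim (X.conjTranspose * X) ≤ 1 := by
      refine (hQM B ω _ _ _ _ hXX (cm_mul_conj_nonneg X) c4).trans ?_
      have := (hQB B ω Unit (X * X.conjTranspose) (cm_mul_conj_nonneg X)).2.2.1
      simpa using this
    have c7 := hD ω (Fin (2 ^ k)) (cut h δ') (cut_nonneg _ _)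
    have c8 := hE (Fin (2 ^ k)) h hsa δ' hδ'
    have c9 : ∑ i, ∑ l, (φ.φ (j (star (h l i) * h l i))).re ≤ L * L * η₂ := by
      have b1 : ∀ i l, (φ.φ (j (star (h l i) * h l i))).re ≤ η₂ := by
        intro i l
        have b2 : h l i = -(e * star (x l) * x i * e - if l = i then e * e else 0) := by
          have b3 : (X.conjTranspose * X) l i = star (x l * e) * (x i * e) := by
            rw [CStarMatrix.mul_apply]
            simp only [Finset.univ_unique, Finset.sum_singleton]
            rfl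
          have b4 : dg (Fin (2 ^ k)) (e * e) l i = if l = i then e * e else 0 := by
            show Matrix.diagonal (fun _ => e * e) l i = _
            rw [Matrix.diagonal_apply]
          have b5 : h l i = dg (Fin (2 ^ k)) (e * e) l i - (X.conjTranspose * X) l i := rfl
          rw [b5, b3, b4, star_mul, hesa.star_eq, neg_sub]
          congr 1
          simp only [mul_assoc]
        rw [b2, star_neg, neg_mul_neg]
        exact ((hu l i).trans_le (min_le_right _ _)).le
      refine (Finset.sum_le_sum fun i _ => Finset.sum_le_sum fun l _ => b1 i l).trans ?_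
      rw [Finset.sum_const, Finset.sum_const, Finset.card_univ, Fintype.card_fin, smul_smul,
        nsmul_eq_mul]
      push_cast
      rw [hLdef]
      push_cast
      exact le_rfl
    have c10 : ω.dim (cut h δ') < δ := by
      rw [Fintype.card_fin] at c7
      calc ω.dim (cut h δ') ≤ m * (C * L * σ₀.dim (mp j (cut h δ'))) := c7
        _ = M * L * σ₀.dim (mp j (cut h δ')) := by rw [hMdef]; ring
        _ ≤ M * L * ((L * L * η₂) / δ' ^ 2) := by
            refine mul_le_mul_of_nonneg_left (c8.trans ?_) (by positivity)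
            exact div_le_div_of_nonneg_right c9 (by positivity)
        _ = (M * L ^ 3 / (M * L ^ 3 + 1)) * (δ / 2) := by rw [hη₂]; field_simp
        _ ≤ 1 * (δ / 2) := by
            refine mul_le_mul_of_nonneg_right ?_ (by positivity)
            rw [div_le_one (by positivity)]
            linarith
        _ < δ := by linarith
    have c11 : L * ω.dim (one1 (cut (e * e) δ')) = ω.dim (cut (dg (Fin (2 ^ k)) (e * e)) δ') := by
      rw [← dg_cut _ _ hee.isSelfAdjoint, hdg1, Fintype.card_fin]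
    calc L * ω.dim (one1 (cut (e * e) δ')) = ω.dim (cut (dg (Fin (2 ^ k)) (e * e)) δ') := c11
      _ ≤ ω.dim (X.conjTranspose * X) + ω.dim (cut h δ') := c5
      _ < 1 + δ := by linarith

end RC
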